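import Pool.Agent.X84.Fm.Nd
import Pool.Agent.W486.SC.AD

/-!
# Linear charts near a fixed point of a map of finite order
-/

open scoped Topology ContDiff Manifold
open Set Filter

set_option autoImplicit false
set_option linter.unusedSectionVars false

noncomputable section

namespace Pool.Agent.X84.Pm

open Pool.Agent.H718R2.G Pool.Agent.TH80.OMS Pool.Agent.Y504.CO Pool.Agent.Y318.MN

universe u

variable {n : ℕ} {N : Type u} [TopologicalSpace N] [ChartedSpace (V n) N] [IsManifold (𝓡 n) ∞ N]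

/-- the map in the chart -/
def ei (E : N → N) (φ : OpenPartialHomeomorph N (V n)) (i : ℕ) (v : V n) : V n :=
  φ (E^[i] (φ.symm v))

theorem iter_cm {E : N → N} (hE : ContMDiff (𝓡 n) (𝓡 n) ∞ E) (i : ℕ) :
    ContMDiff (𝓡 n) (𝓡 n) ∞ E^[i] := by
  induction i with
  | zero => exact contMDiff_id
  | succ i ih =>
    rw [Function.iterate_succ']
    exact hE.comp ih

theorem ei_cd {E : N → N} (hE : ContMDiff (𝓡 n) (𝓡 n) ∞ E) {φ : OpenPartialHomeomorph N (V n)}
    (hφ : φ ∈ IsManifold.maximalAtlas (𝓡 n) ∞ N) (i : ℕ) {v : V n} (hv : v ∈ φ.target)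
    (hv' : E^[i] (φ.symm v) ∈ φ.source) : ContDiffAt ℝ ∞ (ei E φ i) v := by
  rw [← contMDiffAt_iff_contDiffAt]
  have h1 : ContMDiffAt (𝓡 n) (𝓡 n) ∞ φ.symm v :=
    (contMDiffOn_symm_of_mem_maximalAtlas hφ _ hv).contMDiffAt (φ.open_target.mem_nhds hv)
  have h2 : ContMDiffAt (𝓡 n) (𝓡 n) ∞ (E^[i] ∘ φ.symm) v := ((iter_cm hE i) _).comp v h1
  have h3 : ContMDiffAt (𝓡 n) (𝓡 n) ∞ φ ((E^[i] ∘ φ.symm) v) :=
    (contMDiffOn_of_mem_maximalAtlas hφ _ hv').contMDiffAt (φ.open_source.mem_nhds hv')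
  exact h3.comp v h2

/-- **Linear charts.** -/
theorem bochner {E : N → N} (hE : ContMDiff (𝓡 n) (𝓡 n) ∞ E) {m : ℕ} (hm : 1 ≤ m)
    (hEm : E^[m] = id) {y : N} (hy : E y = y) :
    ∃ ψ ∈ IsManifold.maximalAtlas (𝓡 n) ∞ N, ∃ L : V n →L[ℝ] V n, y ∈ ψ.source ∧ L ^ m = 1 ∧
      ∀ x ∈ ψ.source, E x ∈ ψ.source ∧ ψ (E x) = L (ψ x) := by
  classical
  set φ : OpenPartialHomeomorph N (V n) := chartAt (V n) y with hφd
  have hφ : φ ∈ IsManifold.maximalAtlas (𝓡 n) ∞ N := IsManifold.chart_mem_maximalAtlas y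
  have hys : y ∈ φ.source := mem_chart_source _ y
  have hyt : φ y ∈ φ.target := φ.map_source hys
  have hEi : ∀ i, E^[i] y = y := fun i => Function.iterate_fixed hy i
  have hsy : ∀ i, E^[i] (φ.symm (φ y)) = y := fun i => by rw [φ.left_inv hys, hEi]
  have hcd : ∀ i, ContDiffAt ℝ ∞ (ei E φ i) (φ y) := fun i =>
    ei_cd hE hφ i hyt (by rw [hsy]; exact hys)
  have hval : ∀ i, ei E φ i (φ y) = φ y := fun i => by
    show φ (E^[i] (φ.symm (φ y))) = φ y
    rw [hsy]
  set L : V n →L[ℝ] V n := fderiv ℝ (ei E φ 1) (φ y) with hL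
  have h0 : ei E φ 0 =ᶠ[𝓝 (φ y)] id := by
    filter_upwards [φ.open_target.mem_nhds hyt] with v hv
    exact φ.right_inv hv
  have hder : ∀ i, HasFDerivAt (ei E φ i) (L ^ i) (φ y) := by
    intro i
    induction i with
    | zero =>
      rw [pow_zero]
      exact (hasFDerivAt_id (φ y)).congr_of_eventuallyEq h0
    | succ i ih =>
      have h1 : ei E φ (i + 1) =ᶠ[𝓝 (φ y)] ei E φ 1 ∘ ei E φ i := by
        have h2 : ContinuousAt (fun v => E^[i] (φ.symm v)) (φ y) := by
          have h3 : ContinuousAt φ.symm (φ y) := φ.continuousAt_symm hyt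
          exact ((iter_cm hE i).continuous.continuousAt).comp h3
        have h4 : ∀ᶠ v in 𝓝 (φ y), E^[i] (φ.symm v) ∈ φ.source := by
          apply h2.eventually
          show ∀ᶠ y in 𝓝 (E^[i] (φ.symm (φ y))), y ∈ φ.source
          rw [hsy]
          exact φ.open_source.mem_nhds hys
        filter_upwards [h4] with v hv
        show φ (E^[i + 1] (φ.symm v)) = φ (E (φ.symm (φ (E^[i] (φ.symm v)))))
        rw [φ.left_inv hv, Function.iterate_succ_apply']
      have h5 : HasFDerivAt (ei E φ 1) L (ei E φ i (φ y)) := by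
        rw [hval]
        exact ((hcd 1).differentiableAt (by simp)).hasFDerivAt
      have h6 := (h5.comp (φ y) ih).congr_of_eventuallyEq h1
      rw [pow_succ']
      exact h6
  have hLm : L ^ m = 1 := by
    have h1 : ei E φ m =ᶠ[𝓝 (φ y)] id := by
      filter_upwards [φ.open_target.mem_nhds hyt] with v hv
      show φ (E^[m] (φ.symm v)) = v
      rw [hEm]
      exact φ.right_inv hv
    exact (hder m).unique ((hasFDerivAt_id (φ y)).congr_of_eventuallyEq h1)
  have hm0 : (m : ℝ) ≠ 0 := by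
    have : m ≠ 0 := by omega
    exact_mod_cast this
  -- averaging
  set θ : V n → V n := fun v => (1 / (m : ℝ)) • ∑ i ∈ Finset.range m, (L ^ (m - i)) (ei E φ i v) with hθ
  have hθd : HasFDerivAt θ ((ContinuousLinearEquiv.refl ℝ (V n) : V n ≃L[ℝ] V n) :
      V n →L[ℝ] V n) (φ y) := by
    have h1 : HasFDerivAt θ ((1 / (m : ℝ)) • ∑ i ∈ Finset.range m, (L ^ (m - i)).comp (L ^ i))
        (φ y) := by
      have h1' : HasFDerivAt (fun v => ∑ i ∈ Finset.range m, (L ^ (m - i)) (ei E φ i v))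
          (∑ i ∈ Finset.range m, (L ^ (m - i)).comp (L ^ i)) (φ y) :=
        HasFDerivAt.fun_sum fun i _ => (L ^ (m - i)).hasFDerivAt.comp (φ y) (hder i)
      exact h1'.const_smul (1 / (m : ℝ))
    have h2 : (1 / (m : ℝ)) • ∑ i ∈ Finset.range m, (L ^ (m - i)).comp (L ^ i) =
        ((ContinuousLinearEquiv.refl ℝ (V n) : V n ≃L[ℝ] V n) : V n →L[ℝ] V n) := by
      have h3 : ∀ i ∈ Finset.range m, (L ^ (m - i)).comp (L ^ i) = (1 : V n →L[ℝ] V n) := by
        intro i hi
        have h4 : (L ^ (m - i)) * (L ^ i) = 1 := by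
          rw [← pow_add, Nat.sub_add_cancel (Finset.mem_range.1 hi).le, hLm]
        exact h4
      rw [Finset.sum_congr rfl h3, Finset.sum_const, Finset.card_range, ← Nat.cast_smul_eq_nsmul ℝ,
        smul_smul, one_div, inv_mul_cancel₀ hm0, one_smul]
      rfl
    rw [← h2]
    exact h1
  set W0 : Set N := ⋂ i ∈ Finset.range m, E^[i] ⁻¹' φ.source with hW0
  have hW0o : IsOpen W0 := isOpen_biInter_finset fun i _ =>
    φ.open_source.preimage (iter_cm hE i).continuous
  set Ω : Set (V n) := φ.target ∩ φ.symm ⁻¹' W0 with hΩ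
  have hΩo : IsOpen Ω := φ.continuousOn_symm.isOpen_inter_preimage φ.open_target hW0o
  have hyΩ : φ y ∈ Ω := by
    refine ⟨hyt, ?_⟩
    simp only [hW0, mem_preimage, mem_iInter]
    intro i _
    rw [hsy]
    exact hys
  have hθs : ContDiffOn ℝ ∞ θ Ω := by
    refine ContDiffOn.const_smul _ ?_
    refine ContDiffOn.sum fun i hi => ?_
    refine (L ^ (m - i)).contDiff.comp_contDiffOn ?_
    intro v hv
    have h1 : E^[i] (φ.symm v) ∈ φ.source := by
      have h2 := hv.2
      simp only [hW0, mem_preimage, mem_iInter] at h2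
      exact h2 i hi
    exact (ei_cd hE hφ i hv.1 h1).contDiffWithinAt
  obtain ⟨Θ, hΘ, hyΘ, hΘΩ, hΘs⟩ := Pool.Agent.W486.SC.ift hΩo hθs hyΩ _ hθd
  set ψ₀ : OpenPartialHomeomorph N (V n) := φ.trans Θ with hψ₀
  have hψ₀v : ∀ x, ψ₀ x = θ (φ x) := fun x => hΘ (φ x)
  have hψ₀s : ∀ x, x ∈ ψ₀.source ↔ x ∈ φ.source ∧ φ x ∈ Θ.source := fun x => Iff.rfl
  set W : Set N := ⋂ i ∈ Finset.range m, E^[i] ⁻¹' ψ₀.source with hW
  have hWo : IsOpen W := isOpen_biInter_finset fun i _ =>
    ψ₀.open_source.preimage (iter_cm hE i).continuous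
  have hWm : ∀ x, x ∈ W ↔ ∀ i < m, E^[i] x ∈ ψ₀.source := by
    intro x
    simp only [hW, mem_iInter, mem_preimage, Finset.mem_range]
  set ψ := ψ₀.restrOpen W hWo with hψ
  have hψs : ∀ x, x ∈ ψ.source ↔ x ∈ ψ₀.source ∧ x ∈ W := by
    intro x
    rw [hψ, OpenPartialHomeomorph.restrOpen_source]
    rfl
  refine ⟨ψ, ?_, L, ?_, hLm, ?_⟩
  · apply OpenPartialHomeomorph.mem_maximalAtlas_of_contMDiffOn
    · have h2 : ContMDiffOn (𝓡 n) (𝓡 n) ∞ (θ ∘ φ) ψ.source :=
        hθs.contMDiffOn.comp ((contMDiffOn_of_mem_maximalAtlas hφ).mono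
          (fun x hx => ((hψs x).1 hx).1.1)) (fun x hx => hΘΩ ((hψs x).1 hx).1.2)
      exact h2.congr fun x _ => hψ₀v x
    · have h2 : ContMDiffOn (𝓡 n) (𝓡 n) ∞ (φ.symm ∘ Θ.symm) ψ.target := by
        have h3 : ∀ v ∈ ψ.target, v ∈ Θ.target ∧ Θ.symm v ∈ φ.target := by
          intro v hv
          have h4 : ψ.symm v ∈ ψ.source := ψ.map_target hv
          have h5 : v ∈ ψ₀.target := by
            have h6 : ψ₀ (ψ.symm v) ∈ ψ₀.target := ψ₀.map_source ((hψs _).1 h4).1
            have h7 : ψ₀ (ψ.symm v) = v := ψ.right_inv hv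
            rwa [h7] at h6
          exact h5
        exact (contMDiffOn_symm_of_mem_maximalAtlas hφ).comp
          (hΘs.contMDiffOn.mono fun v hv => (h3 v hv).1) (fun v hv => (h3 v hv).2)
      exact h2
  · rw [hψs, hWm]
    have h1 : y ∈ ψ₀.source := ⟨hys, hyΘ⟩
    exact ⟨h1, fun i _ => by rw [hEi]; exact h1⟩
  · intro x hx
    rw [hψs, hWm] at hx
    constructor
    · rw [hψs, hWm]
      have h1 : ∀ i < m, E^[i] (E x) ∈ ψ₀.source := by
        intro i hi
        rw [← Function.iterate_succ_apply]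
        rcases Nat.lt_or_ge (i + 1) m with h2 | h2
        · exact hx.2 _ h2
        · have h3 : i + 1 = m := by omega
          rw [Nat.succ_eq_add_one, h3, hEm]
          exact hx.1
      exact ⟨h1 0 (by omega), h1⟩
    · show ψ₀ (E x) = L (ψ₀ x)
      rw [hψ₀v, hψ₀v]
      have h1 : ∀ (z : N), z ∈ φ.source → ∀ i, ei E φ i (φ z) = φ (E^[i] z) := by
        intro z hz i
        show φ (E^[i] (φ.symm (φ z))) = _
        rw [φ.left_inv hz]
      have hxs : x ∈ φ.source := hx.1.1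
      have hExs : E x ∈ φ.source := by
        rcases Nat.lt_or_ge 1 m with h2 | h2
        · exact (hx.2 1 h2).1
        · have h3 : m = 1 := by omega
          have h4 : E x = x := by
            have := congrFun hEm x
            rw [h3] at this
            exact this
          rw [h4]; exact hxs
      simp only [hθ]
      rw [map_smul, map_sum]
      congr 1
      have h1a : ∀ i ∈ Finset.range m, (L ^ (m - i)) (ei E φ i (φ (E x))) =
          (L ^ (m - i)) (φ (E^[i] (E x))) := fun i _ => by rw [h1 _ hExs i]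
      have h1b : ∀ i ∈ Finset.range m, L ((L ^ (m - i)) (ei E φ i (φ x))) =
          L ((L ^ (m - i)) (φ (E^[i] x))) := fun i _ => by rw [h1 _ hxs i]
      rw [Finset.sum_congr rfl h1a, Finset.sum_congr rfl h1b]
      have h5 : ∀ i ∈ Finset.range m, (L ^ (m - i)) (φ (E^[i] (E x))) =
          (fun i => (L ^ (m + 1 - i)) (φ (E^[i] x))) (i + 1) := by
        intro i _
        show (L ^ (m - i)) (φ (E^[i] (E x))) = (L ^ (m + 1 - (i + 1))) (φ (E^[i + 1] x))
        rw [Nat.add_sub_add_right, Function.iterate_succ_apply]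
      have h6 : ∀ i ∈ Finset.range m, L ((L ^ (m - i)) (φ (E^[i] x))) =
          (fun i => (L ^ (m + 1 - i)) (φ (E^[i] x))) i := by
        intro i hi
        have h7 := (Finset.mem_range.1 hi).le
        show L ((L ^ (m - i)) (φ (E^[i] x))) = (L ^ (m + 1 - i)) (φ (E^[i] x))
        rw [show m + 1 - i = (m - i) + 1 by omega, pow_succ']
        rfl
      rw [Finset.sum_congr rfl h5, Finset.sum_congr rfl h6]
      have h8 := Finset.sum_range_succ (fun i => (L ^ (m + 1 - i)) (φ (E^[i] x))) m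
      have h9 := Finset.sum_range_succ' (fun i => (L ^ (m + 1 - i)) (φ (E^[i] x))) m
      have h10 : (L ^ (m + 1 - m)) (φ (E^[m] x)) = (L ^ (m + 1 - 0)) (φ (E^[0] x)) := by
        rw [hEm, Nat.sub_zero, pow_succ, hLm, one_mul, Nat.add_sub_cancel_left, pow_one]
        rfl
      rw [h8, h10] at h9
      exact (add_right_cancel h9).symm

end Pool.Agent.X84.Pm
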