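import Pool.Agent.X84.Tor.Defs

/-!
# Definitions: symmetric Hamiltonian maps and elements of compact abelian groups
-/

open scoped Topology ContDiff Manifold
open Set Filter

set_option autoImplicit false
set_option linter.unusedSectionVars false

noncomputable section

namespace Pool.Agent.X84.Pm

open Pool.Agent.X84.Fm.Defs Pool.Agent.X84.Tor

universe u v

/-- `S = Q ∘ ρ_t`, where `ρ` is a `C^∞` action of a torus `ℝᵏ/ℤᵏ` (`k ≥ 0`) and `Q` a `C^∞` map of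
finite order which commutes with `ρ`, and `h` is invariant under `ρ` and `Q`. -/
def Symmetry (E : Type u) [NormedAddCommGroup E] [NormedSpace ℝ E] {P : Type v}
    [TopologicalSpace P] [ChartedSpace E P] (h : P → ℝ) (S : P → P) : Prop :=
  ∃ (k : ℕ) (ρ : (Fin k → ℝ) → P → P) (Q : P → P) (t : Fin k → ℝ), TorusAction E k ρ ∧
    ContMDiff 𝓘(ℝ, E) 𝓘(ℝ, E) ∞ Q ∧ (∃ m : ℕ, 1 ≤ m ∧ Q^[m] = id) ∧
    (∀ s x, Q (ρ s x) = ρ s (Q x)) ∧ (∀ s x, h (ρ s x) = h x) ∧ (∀ x, h (Q x) = h x) ∧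
    ∀ x, S x = Q (ρ t x)

/-- `F` is an element `Q ∘ ρ_t` of a compact abelian group of `C^∞` diffeomorphisms: `ρ` is a `C^∞`
action of a torus, `Q` a `C^∞` map of finite order which commutes with `ρ`. -/
def CompactAbelian (E : Type u) [NormedAddCommGroup E] [NormedSpace ℝ E] {P : Type v}
    [TopologicalSpace P] [ChartedSpace E P] (F : P → P) : Prop :=
  Symmetry E (fun _ : P => (0 : ℝ)) F

/-- `F = R ∘ φ_T`, where
(1) `φ` is the flow of `A h`, `A` a linear operator from `C^∞` functions to `C^∞` vector fields with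
`df(A f) ≥ 0` for all `f`, `h` a `C^∞` function, and `T ≥ 0`;
(2) `h ∘ R ≥ h`, and `R` coincides with some `Symmetry` of `h` on a neighbourhood of the set of the
critical points `x` of `h` such that `R x` is critical and `h (R x) = h x`. -/
def SymmetricMonotone (E : Type u) [NormedAddCommGroup E] [NormedSpace ℝ E]
    [FiniteDimensional ℝ E] {P : Type v} [TopologicalSpace P] [ChartedSpace E P]
    [IsManifold 𝓘(ℝ, E) ∞ P] [T2Space P] [CompactSpace P] (F : P → P) : Prop :=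
  ∃ A : Fun E P →ₗ[ℝ] SmoothFields E P,
    (∀ (f : Fun E P) (x : P), (0 : ℝ) ≤ mfderiv 𝓘(ℝ, E) 𝓘(ℝ, ℝ) f x ((A f).1 x)) ∧
    ∃ (h : Fun E P) (φ : Flow ℝ P) (T : ℝ) (R S : P → P) (W : Set P), IsFlowOf (A h).1 φ ∧
      0 ≤ T ∧ Symmetry E h S ∧ (∀ x, h x ≤ h (R x)) ∧ IsOpen W ∧
      (∀ x, Crit E h x → Crit E h (R x) → h (R x) = h x → x ∈ W) ∧ (∀ x ∈ W, R x = S x) ∧
      ∀ x, F x = R (φ T x)

/-- `F = S ∘ φ_T`, where `φ` is the flow of `A h`, `A` a linear operator from `C^∞` functions to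
`C^∞` vector fields with `df(A f) ≥ 0` for all `f`, `h` a `C^∞` function, `T` a real number, and `S`
an element of a compact abelian group of `C^∞` diffeomorphisms preserving `h`. -/
def SymmetricHamiltonian (E : Type u) [NormedAddCommGroup E] [NormedSpace ℝ E]
    [FiniteDimensional ℝ E] {P : Type v} [TopologicalSpace P] [ChartedSpace E P]
    [IsManifold 𝓘(ℝ, E) ∞ P] [T2Space P] [CompactSpace P] (F : P → P) : Prop :=
  ∃ A : Fun E P →ₗ[ℝ] SmoothFields E P,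
    (∀ (f : Fun E P) (x : P), (0 : ℝ) ≤ mfderiv 𝓘(ℝ, E) 𝓘(ℝ, ℝ) f x ((A f).1 x)) ∧
    ∃ (h : Fun E P) (φ : Flow ℝ P) (T : ℝ) (S : P → P), IsFlowOf (A h).1 φ ∧
      Symmetry E h S ∧ ∀ x, F x = S (φ T x)

/-- `F = S ∘ φ_T`, where `φ` is the flow of a field `X` with `B(X, ·) = dh`, `B` a `C^∞` field of
nondegenerate bilinear forms with `B(v, v) ≥ 0` (for instance a symplectic form: then `X` is the
Hamiltonian field of `h`), and `S` an element of a compact abelian group of `C^∞` diffeomorphisms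
preserving `h`. -/
def SymmetricForm (E : Type u) [NormedAddCommGroup E] [NormedSpace ℝ E]
    [FiniteDimensional ℝ E] {P : Type v} [TopologicalSpace P] [ChartedSpace E P]
    [IsManifold 𝓘(ℝ, E) ∞ P] (F : P → P) : Prop :=
  ∃ B : (x : P) → TangentSpace 𝓘(ℝ, E) x →L[ℝ] TangentSpace 𝓘(ℝ, E) x →L[ℝ] ℝ, SmoothForm B ∧
    (∀ x (v : TangentSpace 𝓘(ℝ, E) x), 0 ≤ B x v v) ∧
    (∀ x (u : TangentSpace 𝓘(ℝ, E) x), (∀ v, B x u v = 0) → u = 0) ∧
    ∃ (h : Fun E P) (X : Field E P) (φ : Flow ℝ P) (T : ℝ) (S : P → P),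
      (∀ x v, B x (X x) v = mfderiv 𝓘(ℝ, E) 𝓘(ℝ, ℝ) h x v) ∧ IsFlowOf X φ ∧
      Symmetry E h S ∧ ∀ x, F x = S (φ T x)

end Pool.Agent.X84.Pm
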