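import Pool.Agent.X84.Pm.Lin
import Pool.Agent.X84.Pm.Open
import Pool.Agent.X84.Pm.Boch

/-!
# Invariant Morse functions for maps of finite order
-/

open scoped Topology ContDiff Manifold
open Set Filter

set_option autoImplicit false
set_option linter.unusedSectionVars false

noncomputable section

namespace Pool.Agent.X84.Pm

open Pool.Agent.X84.Fl Pool.Agent.X84.Fm
open Pool.Agent.H718R2.G Pool.Agent.TH80.OMS Pool.Agent.Y504.CO Pool.Agent.Y318.MN

universe u

variable {n : ℕ} {N : Type u} [TopologicalSpace N] [T2Space N]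
  [ChartedSpace (V n) N] [IsManifold (𝓡 n) ∞ N] [CompactSpace N]

theorem dvd_of_min {X : Type*} {P : X → X} {y : X} {j i : ℕ} (hj : 1 ≤ j) (hjy : P^[j] y = y)
    (hmin : ∀ d, 1 ≤ d → d < j → P^[d] y ≠ y) (hi : P^[i] y = y) : j ∣ i := by
  have h1 : Function.IsPeriodicPt P (i % j) y :=
    Function.IsPeriodicPt.mod (show Function.IsPeriodicPt P i y from hi) hjy
  by_contra hcon
  have h2 : 1 ≤ i % j := Nat.one_le_iff_ne_zero.2 fun h => hcon (Nat.dvd_of_mod_eq_zero h)
  exact hmin _ h2 (Nat.mod_lt _ (by omega)) h1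

theorem lin_iter {j : ℕ} {P : N → N} {ψ : OpenPartialHomeomorph N (V n)} {L : V n →L[ℝ] V n}
    (hL : ∀ x ∈ ψ.source, P^[j] x ∈ ψ.source ∧ ψ (P^[j] x) = L (ψ x)) (k : ℕ) {x : N}
    (hx : x ∈ ψ.source) : P^[j * k] x ∈ ψ.source ∧ ψ (P^[j * k] x) = (L ^ k) (ψ x) := by
  induction k with
  | zero => exact ⟨hx, rfl⟩
  | succ k ih =>
    have h1 : P^[j * (k + 1)] x = P^[j] (P^[j * k] x) := by
      rw [← Function.iterate_add_apply]
      congr 1
      ring_nf
    rw [h1]
    refine ⟨(hL _ ih.1).1, ?_⟩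
    rw [(hL _ ih.1).2, ih.2, pow_succ']
    rfl

theorem inv_pow {L : V n →L[ℝ] V n} {Λ : V n → ℝ} (h : ∀ v, Λ (L v) = Λ v) (k : ℕ) (v : V n) :
    Λ ((L ^ k) v) = Λ v := by
  induction k with
  | zero => rfl
  | succ k ih =>
    rw [pow_succ']
    show Λ (L ((L ^ k) v)) = Λ v
    rw [h, ih]

/-- cut-off functions for averages -/
theorem exists_avg {P : N → N} (hP : ContMDiff (𝓡 n) (𝓡 n) ∞ P) {m : ℕ} (hm : 1 ≤ m) {y : N}
    {j : ℕ} (hj : 1 ≤ j) (hjy : P^[j] y = y) (hmin : ∀ d, 1 ≤ d → d < j → P^[d] y ≠ y)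
    {ψ : OpenPartialHomeomorph N (V n)} (hyψ : y ∈ ψ.source) {L : V n →L[ℝ] V n}
    (hL : ∀ x ∈ ψ.source, P^[j] x ∈ ψ.source ∧ ψ (P^[j] x) = L (ψ x)) :
    ∃ (β : N → ℝ) (κ : ℝ), ContMDiff (𝓡 n) 𝓘(ℝ, ℝ) ∞ β ∧ tsupport β ⊆ ψ.source ∧ 0 < κ ∧
      ∀ᶠ x in 𝓝 y, ∀ Λ : V n → ℝ, (∀ v, Λ (L v) = Λ v) →
        ∑ i ∈ Finset.range m, β (P^[i] x) * Λ (ψ (P^[i] x)) = κ * Λ (ψ x) := by
  classical
  set F : Set N := ((fun i => P^[i] y) '' (Finset.range m : Set ℕ)) \ {y} with hF
  have hFf : F.Finite := ((Finset.range m).finite_toSet.image _).subset sdiff_subset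
  have hS : ψ.source ∩ Fᶜ ∈ 𝓝 y := by
    refine inter_mem (ψ.open_source.mem_nhds hyψ) (hFf.isClosed.isOpen_compl.mem_nhds ?_)
    intro h
    exact h.2 rfl
  obtain ⟨f, -, hf⟩ := (SmoothBumpFunction.nhds_basis_tsupport (I := 𝓡 n) y).mem_iff.1 hS
  set κ : ℝ := ∑ i ∈ Finset.range m, (if P^[i] y = y then (1 : ℝ) else 0) with hκ
  refine ⟨f, κ, f.contMDiff, hf.trans inter_subset_left, ?_, ?_⟩
  · have h1 : (0 : ℝ) < (if P^[0] y = y then (1 : ℝ) else 0) := by
      rw [show (if P^[0] y = y then (1 : ℝ) else 0) = 1 from if_pos rfl]; exact one_pos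
    refine lt_of_lt_of_le h1 ?_
    exact Finset.single_le_sum (f := fun i => if P^[i] y = y then (1 : ℝ) else 0)
      (fun i _ => by positivity) (Finset.mem_range.2 (by omega))
  · have key : ∀ i ∈ Finset.range m, ∀ᶠ x in 𝓝 y, ∀ Λ : V n → ℝ, (∀ v, Λ (L v) = Λ v) →
        f (P^[i] x) * Λ (ψ (P^[i] x)) = (if P^[i] y = y then (1 : ℝ) else 0) * Λ (ψ x) := by
      intro i hi
      have hc : Continuous P^[i] := (iter_cm hP i).continuous
      by_cases h1 : P^[i] y = y
      · have h2 : ∀ᶠ x in 𝓝 y, f (P^[i] x) = 1 := by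
          have h3 : Tendsto P^[i] (𝓝 y) (𝓝 y) := by
            have := hc.tendsto y
            rwa [h1] at this
          exact h3.eventually f.eventuallyEq_one
        filter_upwards [h2, ψ.open_source.mem_nhds hyψ] with x hx hxs Λ hΛ
        obtain ⟨k, hk⟩ := dvd_of_min hj hjy hmin h1
        rw [hx, if_pos h1, one_mul, one_mul, hk, (lin_iter hL k hxs).2, inv_pow hΛ]
      · have h2 : ∀ᶠ x in 𝓝 y, f (P^[i] x) = 0 := by
          have h3 : P^[i] y ∉ tsupport f := by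
            intro h4
            exact (hf h4).2 ⟨⟨i, hi, rfl⟩, h1⟩
          have h5 : ∀ᶠ z in 𝓝 (P^[i] y), z ∉ tsupport f :=
            (isClosed_tsupport f).isOpen_compl.mem_nhds h3
          filter_upwards [(hc.tendsto y).eventually h5] with x hx
          exact image_eq_zero_of_notMem_tsupport hx
        filter_upwards [h2] with x hx Λ _
        rw [hx, if_neg h1, zero_mul, zero_mul]
    have h1 := (Filter.eventually_all_finset (Finset.range m)).2 key
    filter_upwards [h1] with x hx Λ hΛ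
    rw [Finset.sum_congr rfl fun i hi => hx i hi Λ hΛ, ← Finset.sum_mul]

/-- averaged functions -/
def avf (P : N → N) (m : ℕ) (ψ : OpenPartialHomeomorph N (V n)) (β : N → ℝ) (Λ : V n → ℝ)
    (x : N) : ℝ := ∑ i ∈ Finset.range m, β (P^[i] x) * Λ (ψ (P^[i] x))

theorem avf_smooth {P : N → N} (hP : ContMDiff (𝓡 n) (𝓡 n) ∞ P) (m : ℕ)
    {ψ : OpenPartialHomeomorph N (V n)} (hψ : ψ ∈ IsManifold.maximalAtlas (𝓡 n) ∞ N)
    {β : N → ℝ} (hβ : ContMDiff (𝓡 n) 𝓘(ℝ, ℝ) ∞ β) (hs : tsupport β ⊆ ψ.source) {Λ : V n → ℝ}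
    (hΛ : ContDiff ℝ ∞ Λ) : ContMDiff (𝓡 n) 𝓘(ℝ, ℝ) ∞ (avf P m ψ β Λ) := by
  have h1 : ContMDiff (𝓡 n) 𝓘(ℝ, ℝ) ∞ (fun x => β x * Λ (ψ x)) := by
    refine contMDiff_of_tsupport fun x hx => ?_
    have hx' : x ∈ ψ.source := hs (closure_mono (fun z hz => by
      rw [Function.mem_support] at hz ⊢
      exact left_ne_zero_of_mul hz) hx)
    have h2 : ContMDiffAt (𝓡 n) (𝓡 n) ∞ ψ x :=
      (contMDiffOn_of_mem_maximalAtlas hψ _ hx').contMDiffAt (ψ.open_source.mem_nhds hx')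
    exact (hβ x).mul ((hΛ.contMDiff (ψ x)).comp x h2)
  have h2 : ∀ i ∈ Finset.range m, ContMDiff (𝓡 n) 𝓘(ℝ, ℝ) ∞
      (fun x => β (P^[i] x) * Λ (ψ (P^[i] x))) := fun i _ => h1.comp (iter_cm hP i)
  exact ContMDiff.sum h2

theorem avf_inv {P : N → N} {m : ℕ} (hPm : P^[m] = id)
    (ψ : OpenPartialHomeomorph N (V n)) (β : N → ℝ) (Λ : V n → ℝ) (x : N) :
    avf P m ψ β Λ (P x) = avf P m ψ β Λ x := by
  unfold avf
  set F : ℕ → ℝ := fun i => β (P^[i] x) * Λ (ψ (P^[i] x)) with hF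
  have h1 : ∀ i ∈ Finset.range m, β (P^[i] (P x)) * Λ (ψ (P^[i] (P x))) = F (i + 1) := by
    intro i _
    simp only [hF]
    rw [Function.iterate_succ_apply]
  rw [Finset.sum_congr rfl h1]
  have h2 := Finset.sum_range_succ F m
  have h3 := Finset.sum_range_succ' F m
  have h4 : F m = F 0 := by
    simp only [hF]
    rw [hPm]
    rfl
  rw [h2, h4] at h3
  exact (add_right_cancel h3).symm

/-- the points of period at most `j` -/
def Cp {X : Type*} (P : X → X) (j : ℕ) : Set X := {x | ∃ d, 1 ≤ d ∧ d ≤ j ∧ P^[d] x = x}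

theorem Cp_closed {P : N → N} (hP : Continuous P) (j : ℕ) : IsClosed (Cp P j) := by
  have h1 : Cp P j = ⋃ d ∈ Finset.Icc 1 j, {x | P^[d] x = x} := by
    ext x
    simp only [Cp, mem_ofPred_eq, mem_iUnion, Finset.mem_Icc, exists_prop]
    constructor
    · rintro ⟨d, h1, h2, h3⟩; exact ⟨d, ⟨h1, h2⟩, h3⟩
    · rintro ⟨d, ⟨h1, h2⟩, h3⟩; exact ⟨d, h1, h2, h3⟩
  rw [h1]
  exact isClosed_biUnion_finset fun d _ => isClosed_eq (hP.iterate d) continuous_id

/-- there are finitely many invariant functions whose small linear combinations can be added to any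
invariant function such that the critical points in `B` of period at most `j` become
nondegenerate -/
def Fix (P : N → N) (j : ℕ) (B : Set N) : Prop :=
  ∃ (k : ℕ) (g : Fin k → N → ℝ), (∀ i, ContMDiff (𝓡 n) 𝓘(ℝ, ℝ) ∞ (g i)) ∧
    (∀ i x, g i (P x) = g i x) ∧ ∀ h : N → ℝ, ContMDiff (𝓡 n) 𝓘(ℝ, ℝ) ∞ h →
      (∀ x, h (P x) = h x) → ∀ ε : ℝ, 0 < ε → ∃ s : Fin k → ℝ, ‖s‖ < ε ∧
        ∀ x ∈ B, x ∈ Cp P j → Gd n (pf h g s) x

theorem local_step {P : N → N} (hP : ContMDiff (𝓡 n) (𝓡 n) ∞ P) {m : ℕ} (hm : 1 ≤ m)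
    (hPm : P^[m] = id) {y : N} {j : ℕ} (hj : 1 ≤ j) (hjy : P^[j] y = y)
    (hmin : ∀ d, 1 ≤ d → d < j → P^[d] y ≠ y) : ∃ B ∈ 𝓝 y, Fix (n := n) P j B := by
  classical
  have hEm : (P^[j])^[m] = id := by
    rw [← Function.iterate_mul, mul_comm, Function.iterate_mul, hPm, Function.iterate_id]
  obtain ⟨ψ, hψ, L, hyψ, hLm, hL⟩ := bochner (iter_cm hP j) hm hEm hjy
  obtain ⟨β, κ, hβ, hβs, hκ, hev⟩ := exists_avg hP hm hj hjy hmin hyψ hL
  have hκ0 : κ ≠ 0 := hκ.ne'
  obtain ⟨A, hA1, hA2, hA3⟩ := eventually_nhds_iff.1 hev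
  have hQs : ContDiff ℝ ∞ (Qf L m) := by
    unfold Qf
    exact ContDiff.sum fun i _ => (dl L i).contDiff.norm_sq ℝ
  have hls : ∀ k : Fin (dm (V n)), ContDiff ℝ ∞ (fun v => co (V n) k (av L m v)) := fun k =>
    ((co (V n) k).comp (av L m)).contDiff
  set g : Fin (dm (V n) + 1) → N → ℝ := Fin.cons (avf P m ψ β (Qf L m))
    (fun k => avf P m ψ β (fun v => co (V n) k (av L m v))) with hg
  set W : Set N := ⋂ d ∈ Finset.Ico 1 j, {x | P^[d] x ≠ x} with hW
  have hWo : IsOpen W := isOpen_biInter_finset fun d _ =>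
    isOpen_ne_fun (iter_cm hP d).continuous continuous_id
  have hyW : y ∈ W := by
    simp only [hW, mem_iInter, Finset.mem_Ico, mem_ofPred_eq]
    exact fun d hd => hmin d hd.1 hd.2
  refine ⟨A ∩ ψ.source ∩ W, ((hA2.inter ψ.open_source).inter hWo).mem_nhds ⟨⟨hA3, hyψ⟩, hyW⟩,
    dm (V n) + 1, g, ?_, ?_, ?_⟩
  · intro i
    refine Fin.cases ?_ (fun k => ?_) i
    · exact avf_smooth hP m hψ hβ hβs hQs
    · exact avf_smooth hP m hψ hβ hβs (hls k)
  · intro i
    refine Fin.cases ?_ (fun k => ?_) i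
    · exact avf_inv hPm ψ β (Qf L m)
    · exact avf_inv hPm ψ β (fun v => co (V n) k (av L m v))
  · intro h hh hinv ε hε
    have hinvj : ∀ i x, h (P^[i] x) = h x := by
      intro i
      induction i with
      | zero => intro x; rfl
      | succ i ih => intro x; rw [Function.iterate_succ_apply, ih, hinv]
    set C : ℝ := 1 + ∑ k, ‖Module.finBasis ℝ (V n) k‖ with hC
    have hC1 : 1 ≤ C := by
      have : 0 ≤ ∑ k, ‖Module.finBasis ℝ (V n) k‖ := Finset.sum_nonneg fun k _ => norm_nonneg _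
      linarith
    have hCk : ∀ k, ‖Module.finBasis ℝ (V n) k‖ ≤ C := by
      intro k
      have h1 := Finset.single_le_sum (f := fun k => ‖Module.finBasis ℝ (V n) k‖)
        (fun k _ => norm_nonneg _) (Finset.mem_univ k)
      have h1' : ‖Module.finBasis ℝ (V n) k‖ ≤ ∑ k, ‖Module.finBasis ℝ (V n) k‖ := h1
      linarith
    have hΩinv : ∀ v ∈ ψ.target, L v ∈ ψ.target ∧ ψ.symm (L v) = P^[j] (ψ.symm v) := by
      intro v hv
      have h1 := hL (ψ.symm v) (ψ.map_target hv)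
      rw [ψ.right_inv hv] at h1
      refine ⟨?_, ?_⟩
      · rw [← h1.2]
        exact ψ.map_source h1.1
      · rw [← h1.2, ψ.left_inv h1.1]
    have hHs : ContDiffOn ℝ ∞ (fun v => h (ψ.symm v)) ψ.target := fun v hv =>
      (chart_cd hh hψ hv).contDiffWithinAt
    obtain ⟨l, c, hl, hc, hnd⟩ := lin_generic hm hLm ψ.open_target (fun v hv => (hΩinv v hv).1)
      (fun v => h (ψ.symm v)) hHs
      (fun v hv => by rw [(hΩinv v hv).2, hinvj])
      (ε := κ * ε / (2 * C)) (by positivity)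
    set s : Fin (dm (V n) + 1) → ℝ := Fin.cons (c / κ)
      (fun k => l (Module.finBasis ℝ (V n) k) / κ) with hs
    have hsε : ‖s‖ < ε := by
      have h2 : ‖s‖ ≤ ε / 2 := by
        refine (pi_norm_le_iff_of_nonneg (by positivity)).2 fun i => ?_
        refine Fin.cases ?_ (fun k => ?_) i
        · show ‖c / κ‖ ≤ ε / 2
          rw [norm_div, Real.norm_eq_abs, Real.norm_of_nonneg hκ.le, div_le_iff₀ hκ]
          refine hc.le.trans ?_
          rw [div_le_iff₀ (by positivity)]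
          nlinarith [mul_pos hκ hε]
        · show ‖l (Module.finBasis ℝ (V n) k) / κ‖ ≤ ε / 2
          rw [norm_div, Real.norm_of_nonneg hκ.le, div_le_iff₀ hκ]
          have h3 := l.le_opNorm (Module.finBasis ℝ (V n) k)
          have h4 : ‖l‖ * ‖Module.finBasis ℝ (V n) k‖ ≤ κ * ε / (2 * C) * C :=
            mul_le_mul hl.le (hCk k) (norm_nonneg _) (by positivity)
          have h5 : κ * ε / (2 * C) * C = ε / 2 * κ := by
            field_simp
          linarith
      linarith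
    refine ⟨s, hsε, ?_⟩
    rintro x ⟨⟨hxA, hxψ⟩, hxW⟩ ⟨d, hd1, hd2, hd3⟩ hcrit
    have hdj : d = j := by
      by_contra hne
      simp only [hW, mem_iInter, Finset.mem_Ico, mem_ofPred_eq] at hxW
      exact hxW d ⟨hd1, lt_of_le_of_ne hd2 hne⟩ hd3
    rw [hdj] at hd3
    have hgs : ∀ i, ContMDiff (𝓡 n) 𝓘(ℝ, ℝ) ∞ (g i) := by
      intro i
      refine Fin.cases ?_ (fun k => ?_) i
      · exact avf_smooth hP m hψ hβ hβs hQs
      · exact avf_smooth hP m hψ hβ hβs (hls k)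
    have hq := pf_smooth (E := V n) hh hgs s
    have hLx : L (ψ x) = ψ x := by
      rw [← (hL x hxψ).2, hd3]
    have hloc : ∀ z ∈ A, z ∈ ψ.source → pf h g s z =
        h z + (l (av L m (ψ z)) + c * Qf L m (ψ z)) := by
      intro z hz _
      have h1 := hA1 z hz
      unfold pf
      rw [Fin.sum_univ_succ]
      have h2 : s 0 * g 0 z = c * Qf L m (ψ z) := by
        show c / κ * avf P m ψ β (Qf L m) z = _
        rw [show avf P m ψ β (Qf L m) z = κ * Qf L m (ψ z) from h1 _ fun v => Qf_L hLm v]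
        field_simp
      have h3 : ∑ k : Fin (dm (V n)), s k.succ * g k.succ z = l (av L m (ψ z)) := by
        have h4 : ∀ k : Fin (dm (V n)), s k.succ * g k.succ z =
            l (Module.finBasis ℝ (V n) k) * co (V n) k (av L m (ψ z)) := by
          intro k
          show l (Module.finBasis ℝ (V n) k) / κ *
            avf P m ψ β (fun v => co (V n) k (av L m v)) z = _
          rw [show avf P m ψ β (fun v => co (V n) k (av L m v)) z =
            κ * co (V n) k (av L m (ψ z)) from h1 (fun v => co (V n) k (av L m v)) fun v => by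
              show co (V n) k (av L m (L v)) = co (V n) k (av L m v)
              rw [av_L hLm]]
          field_simp
        rw [Finset.sum_congr rfl fun k _ => h4 k]
        have h5 := DFunLike.congr_fun (sum_co l) (av L m (ψ z))
        rw [sum_apply] at h5
        exact h5
      rw [h2, h3]
      ring
    have heq : (fun w => pf h g s (ψ.symm w)) =ᶠ[𝓝 (ψ x)]
        fun v => h (ψ.symm v) + (l (av L m v) + c * Qf L m v) := by
      have h1 : ∀ᶠ v in 𝓝 (ψ x), ψ.symm v ∈ A := by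
        apply (ψ.continuousAt_symm (ψ.map_source hxψ)).eventually
        rw [ψ.left_inv hxψ]
        exact hA2.mem_nhds hxA
      filter_upwards [h1, ψ.open_target.mem_nhds (ψ.map_source hxψ)] with v hv hvt
      rw [hloc _ hv (ψ.map_target hvt), ψ.right_inv hvt]
    refine nondeg_of_chart hq hψ hxψ ?_ ?_
    · exact (crit_iff hq hψ hxψ).1 hcrit
    · intro w hw
      refine hnd (ψ x) (ψ.map_source hxψ) hLx ?_ w ?_
      · rw [← heq.fderiv_eq]
        exact (crit_iff hq hψ hxψ).1 hcrit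
      · rw [← heq.fderiv.fderiv_eq]
        exact hw

/-- **Invariant Morse functions.** A nonempty set of invariant functions which is open with respect
to finite families of invariant perturbations contains a Morse function. -/
theorem inv_morse {P : N → N} (hP : ContMDiff (𝓡 n) (𝓡 n) ∞ P) {m : ℕ} (hm : 1 ≤ m)
    (hPm : P^[m] = id) (𝒰 : (N → ℝ) → Prop)
    (h1 : ∀ h, 𝒰 h → ContMDiff (𝓡 n) 𝓘(ℝ, ℝ) ∞ h ∧ ∀ x, h (P x) = h x)
    (h2 : ∀ h, 𝒰 h → ∀ (k : ℕ) (g : Fin k → N → ℝ), (∀ i, ContMDiff (𝓡 n) 𝓘(ℝ, ℝ) ∞ (g i)) →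
      (∀ i x, g i (P x) = g i x) → ∀ᶠ s in 𝓝 (0 : Fin k → ℝ), 𝒰 (pf h g s))
    {h : N → ℝ} (hh : 𝒰 h) : ∃ q, 𝒰 q ∧ ∀ x, IsCrit n q x → Nondeg n q x := by
  classical
  have main : ∀ j : ℕ, ∃ q, 𝒰 q ∧ ∀ x ∈ Cp P j, Gd n q x := by
    intro j
    induction j with
    | zero =>
      refine ⟨h, hh, ?_⟩
      rintro x ⟨d, hd1, hd2, -⟩
      omega
    | succ j ih =>
      obtain ⟨q, hq, hqg⟩ := ih
      have hCc := Cp_closed hP.continuous (j + 1)
      have hO := gd_isOpen (h1 q hq).1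
      set K : Set N := Cp P (j + 1) \ {x | Gd n q x} with hK
      have hKc : IsClosed K := hCc.sdiff hO
      have key : ∀ y ∈ K, ∃ B : Set N, IsClosed B ∧ B ∈ 𝓝 y ∧ Fix (n := n) P (j + 1) B := by
        rintro y ⟨⟨d, hd1, hd2, hd3⟩, hyO⟩
        have hnot : ∀ d', 1 ≤ d' → d' < j + 1 → P^[d'] y ≠ y := fun d' h3 h4 h5 =>
          hyO (hqg y ⟨d', h3, by omega, h5⟩)
        have hdj : d = j + 1 := by
          by_contra hne
          exact hnot d hd1 (lt_of_le_of_ne hd2 hne) hd3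
        rw [hdj] at hd3
        obtain ⟨B, hB, k, g, hg1, hg2, hg3⟩ := local_step hP hm hPm (by omega) hd3 hnot
        obtain ⟨B', hB'1, hB'2, hB'3⟩ := exists_mem_nhds_isClosed_subset hB
        exact ⟨B', hB'2, hB'1, k, g, hg1, hg2, fun h' a1 a2 ε a3 => by
          obtain ⟨s, hs1, hs2⟩ := hg3 h' a1 a2 ε a3
          exact ⟨s, hs1, fun x hx => hs2 x (hB'3 hx)⟩⟩
      choose! B hB1 hB2 hB3 using key
      obtain ⟨t, ht1, ht2⟩ := hKc.isCompact.elim_nhds_subcover (fun y => interior (B y))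
        (fun y hy => interior_mem_nhds.2 (hB2 y hy))
      set D0 : Set N := Cp P (j + 1) \ ⋃ y ∈ t, interior (B y) with hD0
      have hD0c : IsClosed D0 := hCc.sdiff (isOpen_biUnion fun y _ => isOpen_interior)
      have hD0g : ∀ x ∈ D0, Gd n q x := by
        rintro x ⟨hx1, hx2⟩
        by_contra hx3
        exact hx2 (ht2 ⟨hx1, hx3⟩)
      have inner : ∀ t' : Finset N, t' ⊆ t → ∃ q', 𝒰 q' ∧
          ∀ x ∈ D0 ∪ ⋃ y ∈ t', (B y ∩ Cp P (j + 1)), Gd n q' x := by
        intro t'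
        induction t' using Finset.induction_on with
        | empty =>
          intro _
          refine ⟨q, hq, fun x hx => ?_⟩
          rcases hx with hx | hx
          · exact hD0g x hx
          · simp at hx
        | insert y t' hyt ih =>
          intro hsub
          obtain ⟨q', hq', hg'⟩ := ih fun z hz => hsub (Finset.mem_insert_of_mem hz)
          have hyK : y ∈ K := ht1 y (hsub (Finset.mem_insert_self _ _))
          obtain ⟨k, g, hg1, hg2, hg3⟩ := hB3 y hyK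
          have hDc : IsClosed (D0 ∪ ⋃ y ∈ t', (B y ∩ Cp P (j + 1))) := by
            refine hD0c.union (isClosed_biUnion_finset fun z hz => ?_)
            exact (hB1 z (ht1 z (hsub (Finset.mem_insert_of_mem hz)))).inter hCc
          have e1 := gd_stable (h1 q' hq').1 hg1 hDc hg'
          have e2 := h2 q' hq' k g hg1 hg2
          obtain ⟨ε, hε, hball⟩ := Metric.eventually_nhds_iff.1 (e1.and e2)
          obtain ⟨s, hs1, hs2⟩ := hg3 q' (h1 q' hq').1 (h1 q' hq').2 ε hε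
          have e3 := hball (y := s) (by rw [dist_zero_right]; exact hs1)
          refine ⟨pf q' g s, e3.2, ?_⟩
          intro x hx
          rcases hx with hx | hx
          · exact e3.1 x (Or.inl hx)
          · simp only [Finset.mem_insert, mem_iUnion, exists_prop] at hx
            obtain ⟨z, hz | hz, hx1, hx2⟩ := hx
            · rw [hz] at hx1
              exact hs2 x hx1 hx2
            · refine e3.1 x (Or.inr ?_)
              simp only [mem_iUnion, exists_prop]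
              exact ⟨z, hz, hx1, hx2⟩
      obtain ⟨q', hq', hg'⟩ := inner t subset_rfl
      refine ⟨q', hq', fun x hx => hg' x ?_⟩
      by_cases hx2 : x ∈ ⋃ y ∈ t, interior (B y)
      · simp only [mem_iUnion, exists_prop] at hx2
        obtain ⟨y, hy, hxy⟩ := hx2
        refine Or.inr ?_
        simp only [mem_iUnion, exists_prop]
        exact ⟨y, hy, interior_subset hxy, hx⟩
      · exact Or.inl ⟨hx, hx2⟩
  obtain ⟨q, hq, hg⟩ := main m
  refine ⟨q, hq, fun x => hg x ⟨m, hm, le_rfl, ?_⟩⟩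
  rw [hPm]
  rfl

end Pool.Agent.X84.Pm
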