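import Pool.Agent.X84.Pm.Near

/-!
# Axiom A approximations of symmetric monotone maps
-/

open scoped Topology ContDiff Manifold
open Set Filter Bundle MeasureTheory Pool.Agent.Helper186 Pool.Agent.H826R2.Wein

set_option autoImplicit false
set_option linter.unusedSectionVars false

noncomputable section

namespace Pool.Agent.X84.Pm

open Pool.Agent.X84.Fl Pool.Agent.X84.Fm Pool.Agent.X84.Tor
open Pool.Agent.H718R2.G Pool.Agent.TH80.OMS Pool.Agent.Y504.CO Pool.Agent.Y318.MN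
open Pool.Agent.W564.SC
open Pool.Agent.H728R2.FA (omegaLim FiniteAttractors)

universe u

variable {n : ℕ} {N : Type u} [TopologicalSpace N] [ChartedSpace (V n) N] [IsManifold (𝓡 n) ∞ N]
  [T2Space N] [CompactSpace N] {r : ℕ∞}

/-- the orbit of a point -/
def Orb {X : Type*} (f : X → X) (x : X) : Set X := range fun k : ℕ => f^[k] x

section orb

variable {X : Type*} {f : X → X}

theorem orb_mem {x y : X} (hx : ∃ m : ℕ, 1 ≤ m ∧ f^[m] x = x) (hy : y ∈ Orb f x) :
    x ∈ Orb f y := by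
  obtain ⟨m, hm, hmx⟩ := hx
  obtain ⟨k, rfl⟩ := hy
  refine ⟨m * (k + 1) - k, ?_⟩
  show f^[m * (k + 1) - k] (f^[k] x) = x
  have h1 : k ≤ m * (k + 1) := by nlinarith
  rw [← Function.iterate_add_apply, Nat.sub_add_cancel h1, Function.iterate_mul]
  exact Function.iterate_fixed hmx _

theorem orb_sub {x y : X} (hy : y ∈ Orb f x) : Orb f y ⊆ Orb f x := by
  obtain ⟨k, rfl⟩ := hy
  rintro _ ⟨j, rfl⟩
  exact ⟨j + k, Function.iterate_add_apply f j k x⟩

theorem orb_image {x : X} (hx : ∃ m : ℕ, 1 ≤ m ∧ f^[m] x = x) : f '' Orb f x = Orb f x := by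
  apply Subset.antisymm
  · rintro _ ⟨_, ⟨k, rfl⟩, rfl⟩
    exact ⟨k + 1, Function.iterate_succ_apply' f k x⟩
  · rintro _ ⟨k, rfl⟩
    obtain ⟨m, hm, hmx⟩ := hx
    refine ⟨f^[k + m - 1] x, ⟨k + m - 1, rfl⟩, ?_⟩
    rw [← Function.iterate_succ_apply' f]
    show f^[k + m - 1 + 1] x = f^[k] x
    rw [show k + m - 1 + 1 = k + m by omega, Function.iterate_add_apply, hmx]

end orb

/-- **Attractors.** If the nonwandering set is finite and consists of periodic points, then every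
`ω`-limit set is contained in a periodic orbit and there are finitely many attractors. -/
theorem attr_of_finite (G : DiffM n N r) (hfin : (Omega G).Finite) (hper : Omega G ⊆ Per G)
    (hPO : Per G ⊆ Omega G) :
    (∀ x, ∃ p ∈ Omega G, omegaLim G x ⊆ Orb G p) ∧
      ∀ (_ : MeasurableSpace N) (μ : Measure N), FiniteAttractors μ G := by
  classical
  have hmet := exists_metric n N
  set O : Set (Set N) := Orb G '' Omega G with hO
  have hOf : O.Finite := hfin.image _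
  have : Fintype O := hOf.fintype
  let en := Fintype.equivFin O
  let M : Fin (Fintype.card O) → Set N := fun i => ((en.symm i : O) : Set N)
  have hM : ∀ i, ∃ p ∈ Omega G, Orb G p = M i := fun i => (en.symm i).2
  have hMs : ∀ i, M i ⊆ Omega G := by
    intro i
    obtain ⟨p, hp, e⟩ := hM i
    rw [← e]
    rintro _ ⟨k, rfl⟩
    obtain ⟨m, hm, hmp⟩ := hper hp
    refine hPO ⟨m, hm, ?_⟩
    show G^[m] (G^[k] p) = G^[k] p
    rw [← Function.iterate_add_apply, add_comm, Function.iterate_add_apply, hmp]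
  have hcl : ∀ i, IsClosed (M i) := fun i => (hfin.subset (hMs i)).isClosed
  have hinv : ∀ i, G.toHomeomorph '' M i = M i := by
    intro i
    obtain ⟨p, hp, e⟩ := hM i
    rw [← e]
    exact orb_image (hper hp)
  have hdis : ∀ i j, i ≠ j → Disjoint (M i) (M j) := by
    intro i j hij
    rw [Set.disjoint_left]
    intro x hxi hxj
    apply hij
    obtain ⟨p, hp, e⟩ := hM i
    obtain ⟨p', hp', e'⟩ := hM j
    rw [← e] at hxi
    rw [← e'] at hxj
    have h1 : Orb G p = Orb G x :=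
      Subset.antisymm (orb_sub (orb_mem (hper hp) hxi)) (orb_sub hxi)
    have h2 : Orb G p' = Orb G x :=
      Subset.antisymm (orb_sub (orb_mem (hper hp') hxj)) (orb_sub hxj)
    have h3 : M i = M j := by rw [← e, ← e', h1, h2]
    exact en.symm.injective (Subtype.ext h3)
  have hcov : Omega G ⊆ ⋃ i, M i := by
    intro x hx
    refine mem_iUnion.2 ⟨en ⟨Orb G x, mem_image_of_mem _ hx⟩, ?_⟩
    show x ∈ ((en.symm (en ⟨Orb G x, mem_image_of_mem _ hx⟩) : O) : Set N)
    rw [Equiv.symm_apply_apply]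
    exact ⟨0, rfl⟩
  have h1 : ∀ p, ∃ i, omegaLim G p ⊆ M i := fun p =>
    cover_of_metric G.toHomeomorph M hcl hinv hdis
      (fun p => (omegaLim_sub_omega _ _).trans hcov) p
  refine ⟨fun x => ?_, fun _ μ => attr_of_metric μ G.toHomeomorph M hinv (fun i => ?_) h1⟩
  · obtain ⟨i, hi⟩ := h1 x
    obtain ⟨p, hp, e⟩ := hM i
    exact ⟨p, hp, by rw [e]; exact hi⟩
  · obtain ⟨p, hp, e⟩ := hM i
    refine ⟨p, by rw [← e]; exact ⟨0, rfl⟩, ?_⟩
    rw [← e]
    exact subset_closure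

/-- **Axiom A approximations.** -/
theorem axiomA_sym (hr : 1 ≤ r) {F : DiffM n N r} (hF : SymmetricMonotone (V n) F)
    (U : Set (DiffM n N r)) (hU : IsOpen[strongTop n N r] U) (hFU : F ∈ U) :
    ∃ G ∈ U, (Omega G).Finite ∧ (∀ p ∈ Omega G, IsHyperbolicPer n G p) ∧ FiniteNoCycle G ∧
      (∀ x, ∃ p ∈ Omega G, omegaLim G x ⊆ Orb G p) ∧
      ∀ (_ : MeasurableSpace N) (μ : Measure N), FiniteAttractors μ G := by
  obtain ⟨q, G, hGU, hq, hm, hnd⟩ := near_sym hr hF U hU hFU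
  obtain ⟨G', h1, h2, h3, h4, h5, -, -⟩ := axiomA_approx hr G hq hm
    (fun z hz => hnd z (hz 0).1) U hU hGU
  have hPO : Per G' ⊆ Omega G' := by
    rintro x ⟨m, hm1, hmx⟩
    exact per_mem_omega hm1 hmx
  obtain ⟨h6, h7⟩ := attr_of_finite G' h2 h3 hPO
  exact ⟨G', h1, h2, fun p hp => Plug.hyp_charpoly hr G' (h3 hp) (h4 p (h3 hp)), h5, h6, h7⟩

theorem SymmetricHamiltonian.mono {F : N → N} (hF : SymmetricHamiltonian (V n) F) :
    SymmetricMonotone (V n) F := by
  obtain ⟨A, hA, h, φ, T, S, hφ, hS, hF⟩ := hF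
  obtain ⟨k, ρ, Q, t, a1, a2, a3, a4, a5, a6, a7⟩ := hS
  rcases le_total 0 T with hT | hT
  · refine ⟨A, hA, h, φ, T, S, S, univ, hφ, hT, ⟨k, ρ, Q, t, a1, a2, a3, a4, a5, a6, a7⟩,
      fun x => ?_, isOpen_univ, fun _ _ _ _ => mem_univ _, fun _ _ => rfl, hF⟩
    rw [a7, a6, a5]
  · refine ⟨A, hA, -h, φ.reverse, -T, S, S, univ, ?_, by linarith,
      ⟨k, ρ, Q, t, a1, a2, a3, a4, fun s x => ?_, fun x => ?_, a7⟩, fun x => ?_, isOpen_univ,
      fun _ _ _ _ => mem_univ _, fun _ _ => rfl, fun x => ?_⟩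
    · have h1 : Fm.IsFlowOf (-(A h).1) φ.reverse := reverse hφ
      rw [map_neg]
      exact h1
    · show -(h (ρ s x)) = -(h x)
      rw [a5]
    · show -(h (Q x)) = -(h x)
      rw [a6]
    · show -(h x) ≤ -(h (S x))
      rw [a7, a6, a5]
    · rw [hF]
      show S (φ T x) = S (φ (- -T) x)
      rw [neg_neg]

theorem SymmetricForm.ham {F : N → N} (hF : SymmetricForm (V n) F) :
    SymmetricHamiltonian (V n) F := by
  obtain ⟨B, hB, hnn, hnd, h, X, φ, T, S, hX, hφ, hS, hT⟩ := hF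
  have h4 : Pool.Agent.X84.Fl.opB (E := V n) hnd h = X := by
    funext x
    apply Pool.Agent.X84.Fl.sharp_unique (E := V n) hnd
    intro v
    rw [Pool.Agent.X84.Fl.opB_spec, hX]
    rfl
  let A : Defs.Fun (V n) N →ₗ[ℝ] Defs.SmoothFields (V n) N :=
    LinearMap.codRestrict (Defs.SmoothFields (V n) N)
      (Pool.Agent.X84.Fl.opB (E := V n) hnd)
      fun f => Pool.Agent.X84.Fl.opB_smooth (E := V n) hB hnd f
  refine ⟨A, ?_, h, φ, T, S, ?_, hS, hT⟩
  · intro f x
    have h2 := Pool.Agent.X84.Fl.opB_spec (E := V n) hnd f x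
      (Pool.Agent.X84.Fl.opB (E := V n) hnd f x)
    have h3 := hnn x (Pool.Agent.X84.Fl.opB (E := V n) hnd f x)
    rw [h2] at h3
    exact h3
  · show Defs.IsFlowOf (Pool.Agent.X84.Fl.opB (E := V n) hnd h) φ
    rw [h4]
    exact hφ

/-- the trivial flow -/
def idFlow (X : Type u) [TopologicalSpace X] : Flow ℝ X where
  toFun := fun _ x => x
  cont' := continuous_snd
  map_add' := fun _ _ _ => rfl
  map_zero' := fun _ => rfl

theorem idFlow_zero : Defs.IsFlowOf (E := V n) (fun x : N => (0 : TangentSpace (𝓡 n) x))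
    (idFlow N) := by
  intro x s
  have h2 : HasMFDerivAt 𝓘(ℝ, ℝ) (𝓡 n) (fun _ : ℝ => x) s (0 : ℝ →L[ℝ] V n) :=
    hasMFDerivAt_const x s
  refine h2.congr_mfderiv ?_
  refine ContinuousLinearMap.ext fun (r : ℝ) => ?_
  show (0 : V n) = r • (0 : V n)
  rw [smul_zero]

/-- the case `A = 0` -/
theorem mono_of_near {F : N → N} {h : N → ℝ} (hh : ContMDiff (𝓡 n) 𝓘(ℝ, ℝ) ∞ h)
    (hF : ∀ x, h x ≤ h (F x)) {S : N → N} (hS : Symmetry (V n) h S) {W : Set N} (hW : IsOpen W)
    (hWc : ∀ x, Crit (V n) h x → Crit (V n) h (F x) → h (F x) = h x → x ∈ W)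
    (hWS : ∀ x ∈ W, F x = S x) : SymmetricMonotone (V n) F := by
  refine ⟨0, fun f x => ?_, ⟨h, hh⟩, idFlow N, 0, F, S, W, idFlow_zero, le_rfl, hS, hF, hW, hWc,
    hWS, fun x => rfl⟩
  show (0 : ℝ) ≤ mfderiv (𝓡 n) 𝓘(ℝ, ℝ) f x 0
  exact le_of_eq (map_zero _).symm

theorem CompactAbelian.mono {F : N → N} (hF : CompactAbelian (V n) F) :
    SymmetricMonotone (V n) F :=
  mono_of_near (h := fun _ => 0) contMDiff_const (fun _ => le_rfl) hF isOpen_univ
    (fun _ _ _ _ => mem_univ _) fun _ _ => rfl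

end Pool.Agent.X84.Pm
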