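import Pool.Agent.X84.Pm.Inv
import Pool.Agent.X84.Pm.Defs
import Pool.Agent.X84.Tor.Main
import Pool.Agent.X84.Fm.Main

/-!
# Diffeomorphisms which do not decrease a Morse function, near symmetric monotone maps
-/

open scoped Topology ContDiff Manifold
open Set Filter Bundle MeasureTheory Pool.Agent.Helper186 Pool.Agent.H826R2.Wein

set_option autoImplicit false
set_option linter.unusedSectionVars false

noncomputable section

namespace Pool.Agent.X84.Pm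

open Pool.Agent.X84.Fl Pool.Agent.X84.Fm Pool.Agent.X84.Tor
open Pool.Agent.H718R2.G Pool.Agent.TH80.OMS Pool.Agent.Y504.CO Pool.Agent.Y318.MN
open Pool.Agent.W564.SC

universe u

variable {n : ℕ} {N : Type u} [TopologicalSpace N] [ChartedSpace (V n) N] [IsManifold (𝓡 n) ∞ N]
  [T2Space N] [CompactSpace N] {r : ℕ∞}

/-- **Compositions with two time maps stay in a neighbourhood.** -/
theorem pair_near {k : ℕ} (hr : 1 ≤ r) {X X₂ : (x : N) → TangentSpace (𝓡 n) x}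
    {Y Y₂ : Fin k → (x : N) → TangentSpace (𝓡 n) x} (hX : SmF (E := V n) X)
    (hY : ∀ j, SmF (E := V n) (Y j)) (hX₂ : SmF (E := V n) X₂)
    (hY₂ : ∀ j, SmF (E := V n) (Y₂ j)) {φ φ₂ : Flow ℝ N} (hφ : IsFl (E := V n) X φ)
    (hφ₂ : IsFl (E := V n) X₂ φ₂) (R F : DiffM n N r) (hF : ∀ x, F x = φ₂ 1 (R (φ 1 x)))
    (U : Set (DiffM n N r)) (hU : IsOpen[strongTop n N r] U) (hFU : F ∈ U) :
    ∃ Φ Φ₂ : Kp k → Flow ℝ N, (∀ s, IsFl (E := V n) (aff X Y s) (Φ s)) ∧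
      (∀ s, IsFl (E := V n) (aff X₂ Y₂ s) (Φ₂ s)) ∧ (∀ x, Φ 0 1 x = φ 1 x) ∧
      (∀ x, Φ₂ 0 1 x = φ₂ 1 x) ∧ Continuous (fun p : Kp k × N => Φ p.1 1 p.2) ∧
      Continuous (fun p : Kp k × N => Φ₂ p.1 1 p.2) ∧
      ∀ᶠ s in 𝓝 (0 : Kp k), ∃ G ∈ U, ∀ x, G x = Φ₂ s 1 (R (Φ s 1 x)) := by
  have hZ := aff_smooth (E := V n) hX hY
  have hZ₂ := aff_smooth (E := V n) hX₂ hY₂
  have hsl : ∀ s : Kp k, ContMDiff (𝓡 n) (𝓘(ℝ, Kp k).prod (𝓡 n)) ∞ (fun x : N => (s, x)) :=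
    fun s => contMDiff_const.prodMk contMDiff_id
  have hZs : ∀ s, SmF (E := V n) (aff X Y s) := fun s => hZ.comp (hsl s)
  have hZs₂ : ∀ s, SmF (E := V n) (aff X₂ Y₂ s) := fun s => hZ₂.comp (hsl s)
  choose Φ hΦ using fun s => exists_flow (hZs s)
  choose Φ₂ hΦ₂ using fun s => exists_flow (hZs₂ s)
  have hs1 := par_flow hZ hΦ 1
  have hs2 := par_flow hZ₂ hΦ₂ 1
  have hX0 : aff X Y (0 : Kp k) = X := by
    funext x
    unfold aff
    simp
  have hX20 : aff X₂ Y₂ (0 : Kp k) = X₂ := by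
    funext x
    unfold aff
    simp
  have e1 : ∀ x, Φ 0 1 x = φ 1 x := by
    intro x
    have h1 := flow_unique (hZs 0) (hΦ 0) (c := fun t => φ t x) (by rw [hX0]; exact hφ x) 1
    simp only [Flow.map_zero_apply] at h1
    exact h1.symm
  have e2 : ∀ x, Φ₂ 0 1 x = φ₂ 1 x := by
    intro x
    have h1 := flow_unique (hZs₂ 0) (hΦ₂ 0) (c := fun t => φ₂ t x) (by rw [hX20]; exact hφ₂ x) 1
    simp only [Flow.map_zero_apply] at h1
    exact h1.symm
  refine ⟨Φ, Φ₂, hΦ, hΦ₂, e1, e2, hs1.continuous, hs2.continuous, ?_⟩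
  rcases isEmpty_or_nonempty N with hN | ⟨⟨z⟩⟩
  · exact Eventually.of_forall fun s => ⟨F, hFU, fun x => hN.elim x⟩
  let H : Kp k → DiffM n N r := fun s =>
    ((timeMap (hZs s) (hΦ s) 1 r).trans R).trans (timeMap (hZs₂ s) (hΦ₂ s) 1 r)
  have hfam : IsFam n N r H := by
    intro y
    have h1 : ContMDiff (𝓘(ℝ, Kp k).prod (𝓡 n)) (𝓡 n) r
        (fun p : Kp k × N => R (Φ p.1 1 p.2)) :=
      R.contMDiff.comp (hs1.of_le (WithTop.coe_le_coe.2 le_top))
    have h2 : ContMDiff (𝓘(ℝ, Kp k).prod (𝓡 n)) (𝓘(ℝ, Kp k).prod (𝓡 n)) r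
        (fun p : Kp k × N => (p.1, R (Φ p.1 1 p.2))) := contMDiff_fst.prodMk h1
    exact ((hs2.of_le (WithTop.coe_le_coe.2 le_top)).comp h2) ((0 : Kp k), y)
  have h0 : H 0 = F := by
    apply Diffeomorph.ext
    intro x
    rw [hF]
    show Φ₂ 0 1 (R (Φ 0 1 x)) = φ₂ 1 (R (φ 1 x))
    rw [e1, e2]
  obtain ⟨κ, hκ, h3⟩ := Pool.Agent.TH80.CLX.fam_mem r hr H hfam z U hU (by rw [h0]; exact hFU)
  filter_upwards [Metric.ball_mem_nhds (0 : Kp k) hκ] with s hs
  exact ⟨H s, h3 s (by simpa using hs), fun x => rfl⟩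

/-- If the function is constant for time one, then its derivative vanishes. -/
theorem strict_along {X : (x : N) → TangentSpace (𝓡 n) x} {φ : Flow ℝ N}
    (hφ : IsFl (E := V n) X φ) {h : N → ℝ} (hh : ContMDiff (𝓡 n) 𝓘(ℝ, ℝ) ∞ h)
    (hX : ∀ x, (0 : ℝ) ≤ dForm (𝓡 n) h x (X x)) {x : N} (heq : h (φ 1 x) = h x) :
    dForm (𝓡 n) h x (X x) = 0 := by
  have hmono := mono_along (E := V n) hφ hh hX x
  have h1 := (along (E := V n) hφ hh x 0).hasDerivWithinAt (s := Icc (0 : ℝ) 1)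
  have h2 : HasDerivWithinAt (fun s => h (φ s x)) 0 (Icc (0 : ℝ) 1) 0 := by
    refine (hasDerivWithinAt_const (0 : ℝ) (Icc (0 : ℝ) 1) (h x)).congr ?_ ?_
    · intro s hs
      have h3 := hmono hs.1
      have h4 := hmono hs.2
      simp only [Flow.map_zero_apply] at h3 h4
      rw [heq] at h4
      exact le_antisymm h4 h3
    · rw [Flow.map_zero_apply]
  have h3 := (uniqueDiffOn_Icc (zero_lt_one' ℝ) 0 (left_mem_Icc.2 zero_le_one)).eq_deriv _ h1 h2
  rw [Flow.map_zero_apply] at h3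
  exact h3

theorem fixed_of_zero {X : (x : N) → TangentSpace (𝓡 n) x} (hXs : SmF (E := V n) X)
    {φ : Flow ℝ N} (hφ : IsFl (E := V n) X φ) {x : N} (hx : X x = 0) (t : ℝ) : φ t x = x := by
  have h1 : IsMIntegralCurve (I := 𝓡 n) (fun _ : ℝ => x) X := by
    intro s
    have h2 : HasMFDerivAt 𝓘(ℝ, ℝ) (𝓡 n) (fun _ : ℝ => x) s (0 : ℝ →L[ℝ] V n) :=
      hasMFDerivAt_const x s
    refine h2.congr_mfderiv ?_
    rw [hx]
    refine ContinuousLinearMap.ext fun (r : ℝ) => ?_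
    show (0 : V n) = r • (0 : V n)
    rw [smul_zero]
  exact (flow_unique (E := V n) hXs hφ h1 t).symm

theorem comm_iter {k : ℕ} {ρ : (Fin k → ℝ) → N → N} (hρ : TorusAction (V n) k ρ) {Q : N → N}
    (hQρ : ∀ s x, Q (ρ s x) = ρ s (Q x)) (t : Fin k → ℝ) (j : ℕ) (x : N) :
    (Q ∘ ρ t)^[j] x = Q^[j] (ρ ((j : ℝ) • t) x) := by
  have hQj : ∀ (i : ℕ) (u : Fin k → ℝ) (y : N), Q^[i] (ρ u y) = ρ u (Q^[i] y) := by
    intro i
    induction i with
    | zero => intro u y; rfl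
    | succ i ih2 =>
      intro u y
      rw [Function.iterate_succ_apply, Function.iterate_succ_apply, hQρ, ih2]
  induction j with
  | zero => simp [hρ.2.1]
  | succ j ih =>
    rw [Function.iterate_succ_apply', ih]
    show Q (ρ t (Q^[j] (ρ ((j : ℝ) • t) x))) = _
    rw [← hQj, ← hρ.2.2.1, ← Function.iterate_succ_apply' Q]
    congr 3
    push_cast
    rw [add_smul, one_smul, add_comm]

/-- the gradient as an operator -/
theorem exists_gradient : ∃ Gr : Defs.Fun (V n) N →ₗ[ℝ] Defs.SmoothFields (V n) N,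
    (∀ (f : Defs.Fun (V n) N) (x : N), (0 : ℝ) ≤ dForm (𝓡 n) f x ((Gr f).1 x)) ∧
    ∀ (f : Defs.Fun (V n) N) (x : N), dForm (𝓡 n) f x ((Gr f).1 x) = 0 → IsCrit n f x := by
  obtain ⟨m, ⟨ι⟩⟩ := exists_imm (E := V n) (P := N)
  refine ⟨LinearMap.codRestrict (Defs.SmoothFields (V n) N) (gl (E := V n) ι)
    fun f => ι.smooth_grad f.contMDiff, fun f x => ι.G_nonneg f x, fun f x h0 => ?_⟩
  exact ι.G_eq_zero h0

/-- two open sets covering a normal space -/
theorem shrink {X : Type*} [TopologicalSpace X] [NormalSpace X] {O₁ O₂ : Set X} (h1 : IsOpen O₁)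
    (h2 : IsOpen O₂) (h : O₁ ∪ O₂ = univ) :
    ∃ C K : Set X, IsClosed C ∧ IsClosed K ∧ C ⊆ O₁ ∧ K ⊆ O₂ ∧ C ∪ K = univ := by
  obtain ⟨W, hW, h3, h4⟩ := normal_exists_closure_subset h2.isClosed_compl h1 (fun x hx => by
    have : x ∈ O₁ ∪ O₂ := by rw [h]; trivial
    exact this.resolve_right hx)
  refine ⟨closure W, Wᶜ, isClosed_closure, hW.isClosed_compl, h4, ?_, ?_⟩
  · intro x hx
    by_contra hx2
    exact hx (h3 hx2)
  · rw [eq_univ_iff_forall]
    intro x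
    by_cases hx : x ∈ W
    · exact Or.inl (subset_closure hx)
    · exact Or.inr hx

/-- **Approximation.** Near a symmetric monotone map there are diffeomorphisms which do not
decrease a Morse function. -/
theorem near_sym (hr : 1 ≤ r) {F : DiffM n N r} (hF : SymmetricMonotone (V n) F)
    (U : Set (DiffM n N r)) (hU : IsOpen[strongTop n N r] U) (hFU : F ∈ U) :
    ∃ (q : N → ℝ) (G : DiffM n N r), G ∈ U ∧ ContMDiff (𝓡 n) 𝓘(ℝ, ℝ) ∞ q ∧
      (∀ x, q x ≤ q (G x)) ∧ ∀ z, IsCrit n q z → Nondeg n q z := by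
  classical
  obtain ⟨A, hA, h, φ, T, R, S, W, hφ, hT0, hS, hR, hW, hWc, hWS, hF⟩ := hF
  obtain ⟨k, ρ, Q, t, hρ, hQ, ⟨m, hm1, hQm⟩, hQρ, hhρ, hhQ, hSx⟩ := hS
  rcases isEmpty_or_nonempty N with hN | ⟨⟨z⟩⟩
  · exact ⟨h, F, hFU, h.contMDiff, fun x => hN.elim x, fun x => hN.elim x⟩
  -- a rational element
  have hfam : IsFam n N r (fun s : Fin k → ℝ => F.trans (dif hρ r s)) := by
    intro y
    have h1 : ContMDiff (𝓘(ℝ, Fin k → ℝ).prod (𝓡 n)) (𝓘(ℝ, Fin k → ℝ).prod (𝓡 n)) r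
        (fun q : (Fin k → ℝ) × N => (q.1, F q.2)) :=
      contMDiff_fst.prodMk (F.contMDiff.comp contMDiff_snd)
    exact ((hρ.1.of_le (WithTop.coe_le_coe.2 le_top)).comp h1).contMDiffAt
  have h0 : F.trans (dif hρ r 0) = F := by
    ext y
    show ρ 0 (F y) = F y
    exact hρ.2.1 _
  obtain ⟨κ, hκ, hmem⟩ := Pool.Agent.TH80.CLX.fam_mem r hr _ hfam z U hU (by rw [h0]; exact hFU)
  obtain ⟨s, d, hs, hd, hker⟩ := exists_rational hρ t hκ
  set P : N → N := Q ∘ ρ (t + s) with hP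
  have hPs : ContMDiff (𝓡 n) (𝓡 n) ∞ P := hQ.comp (act_smooth hρ _)
  have hmd : 1 ≤ m * d := Nat.mul_pos hm1 hd
  have hPm : P^[m * d] = id := by
    funext x
    rw [hP, comm_iter hρ hQρ]
    have e1 : Q^[m * d] = id := by
      rw [Function.iterate_mul, hQm]
      exact Function.iterate_id d
    have e2 : ((m * d : ℕ) : ℝ) • (t + s) ∈ ker hρ := by
      have := AddSubgroup.nsmul_mem (ker hρ) hker m
      rw [← Nat.cast_smul_eq_nsmul ℝ, smul_smul] at this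
      push_cast
      exact this
    rw [e1]
    exact e2 x
  have hhP : ∀ x, h (P x) = h x := fun x => by
    show h (Q (ρ (t + s) x)) = h x
    rw [hhQ, hhρ]
  set F₁ : DiffM n N r := F.trans (dif hρ r s) with hF₁
  have hF₁U : F₁ ∈ U := hmem s hs
  -- the map `R₁`
  have hAhs : SmF (E := V n) (A h).1 := (A h).2
  set R₁ : DiffM n N r := (timeMap hAhs hφ (-T) r).trans F₁ with hR₁
  have hR₁x : ∀ x, R₁ x = ρ s (R x) := by
    intro x
    show ρ s (F (φ (-T) x)) = ρ s (R x)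
    rw [hF, ← φ.map_add, add_neg_cancel, Flow.map_zero_apply]
  have hR₁P : ∀ x ∈ W, R₁ x = P x := by
    intro x hx
    rw [hR₁x, hWS x hx, hSx]
    show ρ s (Q (ρ t x)) = Q (ρ (t + s) x)
    rw [← hQρ, ← hρ.2.2.1, add_comm]
  have hR₁h : ∀ x, h x ≤ h (R₁ x) := fun x => by
    rw [hR₁x, hhρ]
    exact hR x
  have hR₁c : ∀ x, IsCrit n h x → IsCrit n h (R₁ x) → h (R₁ x) = h x → x ∈ W := by
    intro x h1 h2 h3
    rw [hR₁x] at h2 h3
    rw [hhρ] at h3
    exact hWc x h1 (crit_act hρ h.contMDiff hhρ s h2) h3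
  -- the gradient and the first perturbation
  obtain ⟨Gr, hGr, hGrc⟩ := exists_gradient (n := n) (N := N)
  obtain ⟨φ', hφ'⟩ := exists_flow (E := V n) (SmF.smul (E := V n) (A h).2 T)
  have hφ'1 : ∀ x, φ' 1 x = φ T x := by
    intro x
    have h1 := (hφ x).comp_mul T
    have h2 := flow_unique (E := V n) (SmF.smul (E := V n) (A h).2 T) hφ' (c := (fun t => φ t x) ∘ (· * T))
      h1 1
    show φ' 1 x = φ T x
    have h3 : φ (1 * T) x = φ' 1 (φ (0 * T) x) := h2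
    rw [one_mul, zero_mul, Flow.map_zero_apply] at h3
    exact h3.symm
  have hid : IsFl (E := V n) (fun x : N => (0 : TangentSpace (𝓡 n) x)) (Flow.mk
      (fun (_ : ℝ) (x : N) => x) continuous_snd (fun _ _ _ => rfl) (fun _ => rfl)) := by
    intro x s
    have h2 : HasMFDerivAt 𝓘(ℝ, ℝ) (𝓡 n) (fun _ : ℝ => x) s (0 : ℝ →L[ℝ] V n) :=
      hasMFDerivAt_const x s
    refine h2.congr_mfderiv ?_
    refine ContinuousLinearMap.ext fun (r : ℝ) => ?_
    show (0 : V n) = r • (0 : V n)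
    rw [smul_zero]
  obtain ⟨Φ, Φ₂, hΦ, hΦ₂, -, -, -, -, hev⟩ := pair_near (n := n) (k := 1) hr
    (SmF.smul (E := V n) (A h).2 T) (Y := fun _ => (Gr h).1) (fun _ => (Gr h).2)
    (SmF.zero (E := V n)) (Y₂ := fun _ => (Gr h).1) (fun _ => (Gr h).2) hφ' hid R₁ F₁
    (fun x => by
      show F₁ x = R₁ (φ' 1 x)
      rw [hφ'1]
      show F₁ x = F₁ (φ (-T) (φ T x))
      rw [← φ.map_add, neg_add_cancel, Flow.map_zero_apply]) U hU hF₁U
  obtain ⟨ε, hε, hεG⟩ : ∃ ε : ℝ, 0 < ε ∧ ∃ G ∈ U, ∀ x, G x =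
      Φ₂ (fun _ => ε) 1 (R₁ (Φ (fun _ => ε) 1 x)) := by
    obtain ⟨δ, hδ, h1⟩ := Metric.eventually_nhds_iff.1 hev
    refine ⟨δ / 2, by positivity, h1 ?_⟩
    rw [dist_zero_right]
    refine lt_of_le_of_lt ((pi_norm_le_iff_of_nonneg (by positivity)).2 fun _ => ?_)
      (half_lt_self hδ)
    rw [Real.norm_of_nonneg (by positivity)]
  set A₁ : Defs.Fun (V n) N →ₗ[ℝ] Defs.SmoothFields (V n) N := T • A + ε • Gr with hA₁
  set A₂ : Defs.Fun (V n) N →ₗ[ℝ] Defs.SmoothFields (V n) N := ε • Gr with hA₂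
  have hA₁pos : ∀ (f : Defs.Fun (V n) N) (x : N), (0 : ℝ) ≤ dForm (𝓡 n) f x ((A₁ f).1 x) := by
    intro f x
    have e : (A₁ f).1 x = T • (A f).1 x + ε • (Gr f).1 x := rfl
    rw [e, map_add, map_smul, map_smul, smul_eq_mul, smul_eq_mul]
    exact add_nonneg (mul_nonneg hT0 (hA f x)) (mul_nonneg hε.le (hGr f x))
  have hA₁c : ∀ (f : Defs.Fun (V n) N) (x : N), dForm (𝓡 n) f x ((A₁ f).1 x) = 0 →
      IsCrit n f x := by
    intro f x h1
    have e : (A₁ f).1 x = T • (A f).1 x + ε • (Gr f).1 x := rfl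
    rw [e, map_add, map_smul, map_smul, smul_eq_mul, smul_eq_mul] at h1
    have h2 : (0 : ℝ) ≤ T * dForm (𝓡 n) f x ((A f).1 x) := mul_nonneg hT0 (hA f x)
    have h3 : (0 : ℝ) ≤ ε * dForm (𝓡 n) f x ((Gr f).1 x) := mul_nonneg hε.le (hGr f x)
    have h4 : ε * dForm (𝓡 n) f x ((Gr f).1 x) = 0 := by linarith
    rcases mul_eq_zero.1 h4 with h5 | h5
    · exact absurd h5 hε.ne'
    · exact hGrc f x h5
  have hA₂pos : ∀ (f : Defs.Fun (V n) N) (x : N), (0 : ℝ) ≤ dForm (𝓡 n) f x ((A₂ f).1 x) := by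
    intro f x
    have e : (A₂ f).1 x = ε • (Gr f).1 x := rfl
    rw [e, map_smul, smul_eq_mul]
    exact mul_nonneg hε.le (hGr f x)
  have hA₂c : ∀ (f : Defs.Fun (V n) N) (x : N), dForm (𝓡 n) f x ((A₂ f).1 x) = 0 →
      IsCrit n f x := by
    intro f x h1
    have e : (A₂ f).1 x = ε • (Gr f).1 x := rfl
    rw [e, map_smul, smul_eq_mul] at h1
    rcases mul_eq_zero.1 h1 with h5 | h5
    · exact absurd h5 hε.ne'
    · exact hGrc f x h5
  -- the initial flows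
  have hψ : IsFl (E := V n) (A₁ h).1 (Φ fun _ => ε) := by
    have h1 := hΦ fun _ => ε
    have e : aff (fun x => T • (A h).1 x) (fun _ : Fin 1 => (Gr h).1) (fun _ => ε) = (A₁ h).1 := by
      funext x
      unfold aff
      rw [Fin.sum_univ_one]
      rfl
    rw [← e]
    exact h1
  have hψ₂ : IsFl (E := V n) (A₂ h).1 (Φ₂ fun _ => ε) := by
    have h1 := hΦ₂ fun _ => ε
    have e : aff (fun x : N => (0 : TangentSpace (𝓡 n) x)) (fun _ : Fin 1 => (Gr h).1)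
        (fun _ => ε) = (A₂ h).1 := by
      funext x
      unfold aff
      rw [Fin.sum_univ_one, zero_add]
      rfl
    rw [← e]
    exact h1
  set ψ := Φ fun _ => ε with hψd
  set ψ₂ := Φ₂ fun _ => ε with hψ₂d
  have hc1 : Continuous (ψ 1) := ψ.continuous continuous_const continuous_id
  have hc2 : Continuous (ψ₂ 1) := ψ₂.continuous continuous_const continuous_id
  obtain ⟨C, K, hC, hK, hCO, hKO, hCK⟩ := shrink (O₁ := {x | ψ 1 x ∈ W})
    (O₂ := {x | h x < h (ψ₂ 1 (R₁ (ψ 1 x)))}) (hW.preimage hc1)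
    (isOpen_lt h.contMDiff.continuous
      (h.contMDiff.continuous.comp (hc2.comp (R₁.continuous.comp hc1)))) (by
      rw [eq_univ_iff_forall]
      intro x
      by_cases hx : h x < h (ψ₂ 1 (R₁ (ψ 1 x)))
      · exact Or.inr hx
      · refine Or.inl ?_
        push Not at hx
        have k1 : h x ≤ h (ψ 1 x) := by
          have := mono_along (E := V n) hψ h.contMDiff (hA₁pos h) x zero_le_one
          simpa [Flow.map_zero_apply] using this
        have k2 := hR₁h (ψ 1 x)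
        have k3 : h (R₁ (ψ 1 x)) ≤ h (ψ₂ 1 (R₁ (ψ 1 x))) := by
          have := mono_along (E := V n) hψ₂ h.contMDiff (hA₂pos h) (R₁ (ψ 1 x)) zero_le_one
          simpa [Flow.map_zero_apply] using this
        have c1 : IsCrit n h x := hA₁c h x
          (strict_along hψ h.contMDiff (hA₁pos h) (le_antisymm (by linarith) k1))
        have c2 : IsCrit n h (R₁ (ψ 1 x)) := hA₂c h _
          (strict_along hψ₂ h.contMDiff (hA₂pos h) (le_antisymm (by linarith) k3))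
        have c3 : ψ 1 x = x := by
          refine fixed_of_zero (A₁ h).2 hψ ?_ 1
          exact A_crit (E := V n) ((Defs.SmoothFields (V n) N).subtype.comp A₁)
            (fun q x => hA₁pos q x) c1
        show ψ 1 x ∈ W
        rw [c3] at c2 ⊢
        refine hR₁c x c1 c2 ?_
        rw [c3] at k2 k3 hx
        linarith)
  -- the family of functions
  obtain ⟨q, ⟨qf, hqf, hqP, χ, χ₂, hχ, hχ₂, ⟨G, hGU, hG⟩, hχC, hχK⟩, hnd⟩ := inv_morse hPs hmd hPm
    (fun q : N → ℝ => ∃ qf : Defs.Fun (V n) N, (qf : N → ℝ) = q ∧ (∀ x, q (P x) = q x) ∧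
      ∃ χ χ₂ : Flow ℝ N, IsFl (E := V n) (A₁ qf).1 χ ∧ IsFl (E := V n) (A₂ qf).1 χ₂ ∧
        (∃ G ∈ U, ∀ x, G x = χ₂ 1 (R₁ (χ 1 x))) ∧ (∀ x ∈ C, χ 1 x ∈ W) ∧
        ∀ x ∈ K, q x < q (χ₂ 1 (R₁ (χ 1 x))))
    (by
      rintro q ⟨qf, hqf, hqP, -⟩
      exact ⟨hqf ▸ qf.contMDiff, hqP⟩)
    (by
      rintro q ⟨qf, hqf, hqP, χ, χ₂, hχ, hχ₂, ⟨G, hGU, hG⟩, hχC, hχK⟩ j g hg hgP
      let gf : Fin j → Defs.Fun (V n) N := fun i => ⟨g i, hg i⟩
      obtain ⟨Ψ, Ψ₂, hΨ, hΨ₂, e1, e2, hcΨ, hcΨ₂, hnear⟩ := pair_near (n := n) hr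
        (X := (A₁ qf).1) (Y := fun i => (A₁ (gf i)).1) (X₂ := (A₂ qf).1)
        (Y₂ := fun i => (A₂ (gf i)).1) (A₁ qf).2 (fun i => (A₁ (gf i)).2) (A₂ qf).2
        (fun i => (A₂ (gf i)).2) hχ hχ₂ R₁ G hG U hU hGU
      have hqs : Continuous q := hqf ▸ qf.contMDiff.continuous
      have hpfc : Continuous (fun p : (Fin j → ℝ) × N => pf q g p.1 p.2) := by
        unfold pf
        refine (hqs.comp continuous_snd).add (continuous_finsetSum _ fun i _ => ?_)
        exact ((continuous_apply i).comp continuous_fst).mul ((hg i).continuous.comp continuous_snd)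
      have ev1 : ∀ᶠ a in 𝓝 (0 : Fin j → ℝ), ∀ x ∈ C, Ψ a 1 x ∈ W := by
        refine hC.isCompact.eventually_forall_of_forall_eventually fun x hx => ?_
        refine (hcΨ.tendsto ((0 : Fin j → ℝ), x)).eventually (hW.mem_nhds ?_)
        show Ψ 0 1 x ∈ W
        rw [e1]
        exact hχC x hx
      have ev2 : ∀ᶠ a in 𝓝 (0 : Fin j → ℝ), ∀ x ∈ K,
          pf q g a x < pf q g a (Ψ₂ a 1 (R₁ (Ψ a 1 x))) := by
        refine hK.isCompact.eventually_forall_of_forall_eventually fun x hx => ?_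
        have c1 : Continuous (fun p : (Fin j → ℝ) × N =>
            pf q g p.1 (Ψ₂ p.1 1 (R₁ (Ψ p.1 1 p.2)))) := by
          have c2 : Continuous (fun p : (Fin j → ℝ) × N => (p.1, R₁ (Ψ p.1 1 p.2))) :=
            continuous_fst.prodMk (R₁.continuous.comp hcΨ)
          have c3 : Continuous (fun p : (Fin j → ℝ) × N =>
              (p.1, Ψ₂ p.1 1 (R₁ (Ψ p.1 1 p.2)))) :=
            continuous_fst.prodMk (hcΨ₂.comp c2)
          exact hpfc.comp c3
        refine (isOpen_lt hpfc c1).mem_nhds ?_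
        show pf q g 0 x < pf q g 0 (Ψ₂ 0 1 (R₁ (Ψ 0 1 x)))
        rw [e1, e2]
        have e3 : ∀ y, pf q g (0 : Fin j → ℝ) y = q y := fun y => by simp [pf]
        rw [e3, e3]
        exact hχK x hx
      filter_upwards [hnear, ev1, ev2] with a ha1 ha2 ha3
      let q' : Defs.Fun (V n) N := qf + ∑ i, a i • gf i
      have hqf' : (q' : N → ℝ) = pf q g a := by
        funext x
        show (qf + ∑ i, a i • gf i : Defs.Fun (V n) N) x = q x + ∑ i, a i * g i x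
        rw [ContMDiffMap.coe_add, Pi.add_apply, hqf]
        congr 1
        have : (⇑(∑ i, a i • gf i) : N → ℝ) = ∑ i, (⇑(a i • gf i) : N → ℝ) :=
          map_sum (ContMDiffMap.coeFnLinearMap : Defs.Fun (V n) N →ₗ[ℝ] N → ℝ) _ _
        rw [this, Finset.sum_apply]
        rfl
      have hfield : ∀ B : Defs.Fun (V n) N →ₗ[ℝ] Defs.SmoothFields (V n) N,
          (B q').1 = aff (B qf).1 (fun i => (B (gf i)).1) a := by
        intro B
        funext x
        unfold aff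
        show (B (qf + ∑ i, a i • gf i)).1 x = _
        rw [map_add, map_sum, Submodule.coe_add, Submodule.coe_sum]
        show (B qf).1 x + (∑ i, (B (a i • gf i)).1) x = _
        rw [Finset.sum_apply]
        congr 1
        refine Finset.sum_congr rfl fun i _ => ?_
        rw [map_smul]
        rfl
      refine ⟨q', hqf', fun x => ?_, Ψ a, Ψ₂ a, ?_, ?_, ha1, ha2, ha3⟩
      · show q (P x) + ∑ i, a i * g i (P x) = q x + ∑ i, a i * g i x
        rw [hqP]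
        congr 1
        exact Finset.sum_congr rfl fun i _ => by rw [hgP]
      · rw [hfield A₁]
        exact hΨ a
      · rw [hfield A₂]
        exact hΨ₂ a)
    (h := h) ⟨h, rfl, hhP, ψ, ψ₂, hψ, hψ₂, hεG, hCO, hKO⟩
  refine ⟨q, G, hGU, hqf ▸ qf.contMDiff, fun x => ?_, hnd⟩
  rcases (by rw [hCK]; trivial : x ∈ C ∪ K) with hx | hx
  · rw [hG, hR₁P _ (hχC x hx)]
    have k1 : q x ≤ q (χ 1 x) := by
      have := mono_along (E := V n) hχ qf.contMDiff (hA₁pos qf) x zero_le_one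
      simp only [Flow.map_zero_apply, hqf] at this
      exact this
    have k3 : q (P (χ 1 x)) ≤ q (χ₂ 1 (P (χ 1 x))) := by
      have := mono_along (E := V n) hχ₂ qf.contMDiff (hA₂pos qf) (P (χ 1 x)) zero_le_one
      simp only [Flow.map_zero_apply, hqf] at this
      exact this
    rw [hqP] at k3
    exact k1.trans k3
  · rw [hG]
    exact (hχK x hx).le

end Pool.Agent.X84.Pm
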